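import Pool.Agent.H13.CB.Gd
import Pool.Agent.H13.CB.Zt
import Pool.Agent.H13.CB.Rt
import Pool.Agent.H13.CB.Sp
import Pool.Agent.H13.KU.Kgp
import Pool.Agent.H13.TA.Ord
import Pool.Agent.H80.CC.Plane

/-!
# MP_1bad5e_ag: the surfaces `D z ^ (l ^ s) = f(t, x)` for every smooth curve `f(t, x) = 0` of type `C_ab`

`O` is a finitely generated domain (for example a ring of `S`-integers of a number field, a finite field, or a finitely
generated subring of a field), `a`, `b` are positive and coprime, and `f ∈ O[t][x]` is monic of degree `a` in `x`, with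
constant term of degree `b` in `t` and all monomials `t ^ j x ^ i` satisfying `a j + b i ≤ a b`. The affine curve `f = 0` is
smooth over the field of fractions of `O`.

Theorem: there is `h₀ ≠ 0` in `O` such that for every homomorphism `φ` from `O` to a finite field `F` with `φ h₀ ≠ 0`
(for each `h ≠ 0` there are even surjective `φ` with `φ h ≠ 0`) the following is true for the reduction
`f_φ ∈ F[t][x]` and a set of primes `l` for which the sum of the `1 / l` diverges, and for all `s ≥ 1`: over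
`F' = F(μ)`, `μ` the roots of unity of order `l ^ s'`, `s' ≥ s`, the `(1 - ζ)`-Selmer group of the Jacobian of
`D z ^ (l ^ s) = f_φ(x)` over `F'(t)` is trivial, for every constant `D ≠ 0` and more generally for all `D ∈ F'[t]`, `D ≠ 0`,
such that there is only one prime of `F'[t][x]/(f_φ)` above each prime factor of `D`. There is no condition on the divisor
class groups or on the Frobenius eigenvalues of the curve.
-/

set_option autoImplicit false

namespace Pool.Agent.Results.MP_1bad5e_ag.RegularPrimes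

open Polynomial IsDedekindDomain

/-- The derivative with respect to `t` of `f ∈ R[t][x]`. -/
noncomputable def derivativeT {R : Type} [CommRing R] (f : R[X][X]) : R[X][X] :=
  f.sum fun i c => monomial i (derivative c)

/-- The affine curve `f = 0` is smooth: `f` and its partial derivatives generate the unit ideal. -/
def IsSmooth {R : Type} [CommRing R] (f : R[X][X]) : Prop :=
  Ideal.span {f, derivative f, derivativeT f} = ⊤

/-- `f ∈ R[t][x]` is monic of degree `a` in `x`, its constant term has degree `b` in `t`, all its monomials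
`t ^ j x ^ i` satisfy `a j + b i ≤ a b`, and `a`, `b` are positive and coprime. -/
structure IsCab {R : Type} [CommRing R] (a b : ℕ) (f : R[X][X]) : Prop where
  a_ne_zero : a ≠ 0
  b_ne_zero : b ≠ 0
  coprime : a.Coprime b
  monic : f.Monic
  natDegree_eq : f.natDegree = a
  natDegree_coeff_zero : (f.coeff 0).natDegree = b
  weight_le : ∀ i, f.coeff i ≠ 0 → a * (f.coeff i).natDegree + b * i ≤ a * b

/-- The polynomial with the coefficients mapped by `φ`. -/
noncomputable def image {R S : Type} [CommRing R] [CommRing S] (φ : R →+* S) (f : R[X][X]) : S[X][X] :=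
  f.map (mapRingHom φ)

/-- The polynomial `f` regarded as a polynomial in `x` over `K = F(t)`. -/
noncomputable def overK {F : Type} [Field F] (f : F[X][X]) : (RatFunc F)[X] :=
  f.map (algebraMap F[X] (RatFunc F))

/-- The polynomial `f` regarded as a polynomial over the extension `F'` of `F`. -/
noncomputable def overExt {F : Type} [Field F] (F' : Type) [Field F'] [Algebra F F'] (f : F[X][X]) :
    F'[X][X] :=
  f.map (mapRingHom (algebraMap F F'))

/-- The polynomial `f` regarded as a polynomial in `x` over the completion `K_v`. -/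
noncomputable def overKv {F : Type} [Field F] (f : F[X][X]) (v : HeightOneSpectrum F[X]) :
    (v.adicCompletion (RatFunc F))[X] :=
  (overK f).map (algebraMap (RatFunc F) (v.adicCompletion (RatFunc F)))

/-- The image of `D ∈ F[t]` in the completion `K_v`. -/
noncomputable def constKv {F : Type} [Field F] (D : F[X]) (v : HeightOneSpectrum F[X]) :
    v.adicCompletion (RatFunc F) :=
  algebraMap (RatFunc F) (v.adicCompletion (RatFunc F)) (algebraMap F[X] (RatFunc F) D)

/-- The natural map from `O = F[t][x]/(f)` to `L = K[x]/(f)`. -/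
noncomputable def toL {F : Type} [Field F] (f : F[X][X]) :
    AdjoinRoot f →+* AdjoinRoot (overK f) :=
  AdjoinRoot.map (algebraMap F[X] (RatFunc F)) f (overK f) dvd_rfl

/-- The natural map from `L = K[x]/(f)` to `L ⊗ K_v = K_v[x]/(f)`. -/
noncomputable def toLv {F : Type} [Field F] (f : F[X][X]) (v : HeightOneSpectrum F[X]) :
    AdjoinRoot (overK f) →+* AdjoinRoot (overKv f v) :=
  AdjoinRoot.map (algebraMap (RatFunc F) (v.adicCompletion (RatFunc F))) (overK f) (overKv f v)
    dvd_rfl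

/-- `(P, Q)` represents, over the field `k`, an effective divisor on `c z ^ m = g(x)` which is
disjoint from the points with `z = 0`, the points with `P(x) = 0` and `z = Q(x)`: `P` is monic,
prime to `g`, and divides `c Q ^ m - g`. -/
def IsMumford {k : Type} [Field k] (m : ℕ) (c : k) (g P Q : k[X]) : Prop :=
  P.Monic ∧ IsCoprime P g ∧ P ∣ C c * Q ^ m - g

/-- The value `∏ c ^ a (x(p) - θ) = (-c ^ a) ^ r P(θ)` of the function `c ^ a (x - θ)` on the
divisor, in `k[x]/(g)`, where `θ` is the class of `x` and `r` is the degree of `P`. If `n` divides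
`a d + 1`, where `d` is the degree of `g`, then `c ^ a (x - θ)` is on `c z ^ n = g(x)` near the
point at infinity the `n`-th power of a function with leading coefficient one. -/
noncomputable def descent {k : Type} [Field k] (a : ℕ) (c : k) (g P : k[X]) : AdjoinRoot g :=
  AdjoinRoot.mk g (C (-c ^ a)) ^ P.natDegree * AdjoinRoot.mk g P

/-- The element `δ` of `k[x]/(g)` is, up to an `n`-th power, the value of the descent map of
`c z ^ n = g(x)` on a divisor: `δ γ ^ n` is a product of elements `descent a c g P ^ (n / m)`, with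
`m` a divisor of `n` and `P` dividing `c Q ^ m - g`, that is, `z ^ (n / m) = Q(x)` on the divisor
with `P(x) = 0`. -/
def IsValue {k : Type} [Field k] (n a : ℕ) (c : k) (g : k[X]) (δ : AdjoinRoot g) : Prop :=
  ∃ (r : ℕ) (m : Fin r → ℕ) (P Q : Fin r → k[X]) (γ : AdjoinRoot g),
    (∀ i, m i ∣ n ∧ IsMumford (m i) c g (P i) (Q i)) ∧
    δ * γ ^ n = ∏ i, descent a c g (P i) ^ (n / m i)

/-- `δ ∈ L^*` has norm in `K^{*n}` and, at each prime `v` of `F[t]` which does not divide `D`,
there is `b ∈ O`, in no prime of `O` above `v`, such that `δ b` is in `L ⊗ K_v` a value of the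
descent map of `D z ^ n = f(x)`. -/
structure IsSelmer {F : Type} [Field F] (n a : ℕ) (D : F[X]) (f : F[X][X])
    (δ : AdjoinRoot (overK f)) : Prop where
  ne_zero : δ ≠ 0
  norm : ∃ y : RatFunc F, Algebra.norm (RatFunc F) δ = y ^ n
  locally : ∀ v : HeightOneSpectrum F[X], D ∉ v.asIdeal → ∃ b : AdjoinRoot f,
    (∀ w : Ideal (AdjoinRoot f), w.IsPrime →
      (∀ s ∈ v.asIdeal, algebraMap F[X] (AdjoinRoot f) s ∈ w) → b ∉ w) ∧
    IsValue n a (constKv D v) (overKv f v) (toLv f v (δ * toL f b))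

/-- There is at most one prime ideal of `O = F[t][x]/(f)` above each prime factor of `D`. -/
def NonsplitFactors {F : Type} [Field F] (D : F[X]) (f : F[X][X]) : Prop :=
  ∀ P : F[X], Prime P → P ∣ D → ∀ w w' : Ideal (AdjoinRoot f), w.IsPrime → w'.IsPrime →
    algebraMap F[X] (AdjoinRoot f) P ∈ w → algebraMap F[X] (AdjoinRoot f) P ∈ w' → w = w'

/-- Over each field `F' = F(ζ)`, `ζ` a primitive root of unity of order `l ^ s'`, the polynomial
`f` is irreducible, and for `1 ≤ s ≤ s'`, `n = l ^ s`, and each `D ∈ F'[t]`, `D ≠ 0`, whose prime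
factors have only one prime of `O' = F'[t][x]/(f)` above them, each `δ` satisfying the Selmer
conditions for `D z ^ n = f(x)` is an `n`-th power. -/
def TrivialSelmer {F : Type} [Field F] (f : F[X][X]) (l : ℕ) : Prop :=
  ∀ (F' : Type) [Field F'] [Finite F'] [Algebra F F'] (s' : ℕ) (ζ : F'),
    IsPrimitiveRoot ζ (l ^ s') → IntermediateField.adjoin F {ζ} = ⊤ → s' ≠ 0 →
    Irreducible (overExt F' f) ∧
    ∀ (s a : ℕ) (D : F'[X]) (δ : AdjoinRoot (overK (overExt F' f))), s ≠ 0 → s ≤ s' →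
      l ^ s ∣ a * f.natDegree + 1 → D ≠ 0 → NonsplitFactors D (overExt F' f) →
      IsSelmer (l ^ s) a D (overExt F' f) δ → ∃ z : AdjoinRoot (overK (overExt F' f)), δ = z ^ (l ^ s)

theorem isSelmer_iff {F : Type} [Field F] (n a : ℕ) (D : F[X]) (f : F[X][X])
    (δ : AdjoinRoot (overK f)) : IsSelmer n a D f δ ↔ H80.CC.Plane.IsSelmer n a D f δ :=
  ⟨fun h => ⟨h.1, h.2, h.3⟩, fun h => ⟨h.1, h.2, h.3⟩⟩

theorem irreducible_of_isDomain {F : Type} [Field F] (f : F[X][X]) (hf : f ≠ 0)
    (h : IsDomain (AdjoinRoot f)) : Irreducible f := by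
  have h1 : (Ideal.span {f}).IsPrime := (Ideal.Quotient.isDomain_iff_prime _).1 h
  exact ((Ideal.span_singleton_prime hf).1 h1).irreducible

theorem isCab_iff {R : Type} [CommRing R] (a b : ℕ) (f : R[X][X]) :
    IsCab a b f ↔ H13.CB.Cab a b f :=
  ⟨fun h => ⟨h.1, h.2, h.3, h.4, h.5, h.6, h.7⟩, fun h => ⟨h.1, h.2, h.3, h.4, h.5, h.6, h.7⟩⟩

theorem exists_zeta {F : Type} [Field F] {a b : ℕ} {f : F[X][X]} (h : H13.CB.Cab a b f)
    (hs : Ideal.span {f, derivative f, H13.TA.dt f} = ⊤) (F' : Type) [Field F'] [Finite F']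
    [Algebra F F'] : ∃ (V : ℤ[X]) (c : ℕ), H13.CB.IsZ (H13.TA.bc F' f) V c := by
  have h' : H13.CB.Cab a b (H13.TA.bc F' f) := H13.CB.cab_bc h F'
  have hg : H13.TA.Good (H13.TA.bc F' f) := H13.CB.good h' (H13.TA.bc_smooth hs)
  have hded := hg.ded
  obtain ⟨V, hV⟩ := H13.CB.zeta1 hg (H13.CB.consec h')
  exact ⟨V, _, hV⟩

/-- the good primes -/
theorem trivialSelmer {F : Type} [Field F] [Finite F] {a b : ℕ} {f : F[X][X]}
    (h : H13.CB.Cab a b f) (hsm : Ideal.span {f, derivative f, H13.TA.dt f} = ⊤) (V : ℤ[X]) (c : ℕ)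
    (hV : H13.CB.IsZ f V c) (l : ℕ) (hl : l.Prime) (hlq : ¬ l ∣ Nat.card F)
    (hno : ∀ b : ZMod l, (V.map (Int.castRingHom (ZMod l))).eval b = 0 →
      b ^ orderOf (Nat.card F : ZMod l) ≠ 1) : TrivialSelmer f l := by
  intro F' _ _ _ s' ζ hζ hgen hs'
  obtain ⟨j, hj⟩ := H13.TA.ordF F F' l s' hl hs' ζ hζ hgen
  have h' : H13.CB.Cab a b (H13.TA.bc F' f) := H13.CB.cab_bc h F'
  have hg : H13.TA.Good (H13.TA.bc F' f) := H13.CB.good h' (H13.TA.bc_smooth hsm)
  have hded := hg.ded
  have : Fact l.Prime := ⟨hl⟩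
  have hq0 : (Nat.card F : ZMod l) ≠ 0 := by
    rw [Ne, ZMod.natCast_eq_zero_iff]
    exact hlq
  have hkl : orderOf (Nat.card F : ZMod l) ∣ l - 1 := ZMod.orderOf_dvd_card_sub_one hq0
  refine ⟨irreducible_of_isDomain _ hg.monic.ne_zero hg.dom, ?_⟩
  obtain ⟨V', hV'⟩ := H13.CB.zeta1 hg (H13.CB.consec h')
  have hcl := H13.CB.cl1 hV hV' l _ j hl hkl hj hno
  intro s a' D δ hs hss ha hD hns hδ
  have hcl' : ∀ C : ClassGroup (AdjoinRoot (H13.TA.bc F' f)), C ^ (l ^ s) = 1 → C = 1 := by
    intro C hC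
    have h1 : orderOf C ∣ l ^ s := orderOf_dvd_of_pow_eq_one hC
    have h2 : orderOf C ∣ Nat.card (ClassGroup (AdjoinRoot (H13.TA.bc F' f))) :=
      orderOf_dvd_natCard C
    have h3 : (l ^ s).Coprime (Nat.card (ClassGroup (AdjoinRoot (H13.TA.bc F' f)))) :=
      Nat.Coprime.pow_left s ((Nat.Prime.coprime_iff_not_dvd hl).2 hcl)
    exact orderOf_eq_one_iff.1 (Nat.eq_one_of_dvd_coprimes h3 h1 h2)
  have hdeg : (H13.TA.bc F' f).natDegree = f.natDegree := H13.TA.bc_deg h.monic
  have hu : ∀ u : (AdjoinRoot (H13.TA.bc F' f))ˣ, ∃ c : F',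
      (u : AdjoinRoot (H13.TA.bc F' f)) = algebraMap F' (AdjoinRoot (H13.TA.bc F' f)) c := by
    intro u
    obtain ⟨c, -, hc⟩ := H13.TA.unit_const hg u
    exact ⟨c, hc⟩
  exact ((H80.CC.Plane.plane_result F' (H13.TA.bc F' f) hg.monic (l ^ s) a'
    (pow_ne_zero _ hl.ne_zero) (by rw [hdeg]; exact ha) D hD hns).2.2 hu).2.2 hcl' δ
    (Or.inl ((isSelmer_iff _ _ _ _ _).1 hδ))

theorem summable_mono {p q : ℕ → Prop} (h : ∀ n, q n → p n)
    (hs : Summable fun l : {l : ℕ // p l} => (1 : ℝ) / (l : ℕ)) :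
    Summable fun l : {l : ℕ // q l} => (1 : ℝ) / (l : ℕ) := by
  let g : {l : ℕ // q l} → {l : ℕ // p l} := fun l => ⟨l.1, h l.1 l.2⟩
  have h1 : Function.Injective g := by
    intro a b hab
    have h3 : (g a).1 = (g b).1 := by rw [hab]
    exact Subtype.ext h3
  have h2 : (fun l : {l : ℕ // q l} => (1 : ℝ) / (l : ℕ)) =
      (fun l : {l : ℕ // p l} => (1 : ℝ) / (l : ℕ)) ∘ g := by
    funext l
    rfl
  rw [h2]
  exact hs.comp_injective h1

theorem finite_case {F : Type} [Field F] [Finite F] {a b : ℕ} {f : F[X][X]}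
    (h : H13.CB.Cab a b f) (hsm : Ideal.span {f, derivative f, H13.TA.dt f} = ⊤) :
    ¬ Summable fun l : {l : ℕ // l.Prime ∧ TrivialSelmer f l} => (1 : ℝ) / (l : ℕ) := by
  have hg : H13.TA.Good f := H13.CB.good h hsm
  have hded := hg.ded
  obtain ⟨V, hV⟩ := H13.CB.zeta1 hg (H13.CB.consec h)
  have hq : 2 ≤ Nat.card F := Finite.one_lt_card
  have hroots : ∀ γ : ℂ, aeval γ V = 0 → ∀ r c : ℕ, r ≠ 0 → γ ^ r ≠ (Nat.card F : ℂ) ^ (r * c) :=
    fun γ hγ r c hr => H13.CB.rt hV (fun F' _ _ _ => exists_zeta h hsm F') γ hγ r c hr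
  have hE := H13.KU.kgp V hV.monic (Nat.card F) hq hroots (Nat.card F)
  intro hsum
  refine hE (summable_mono (fun l hl => ⟨hl.1, trivialSelmer h hsm V _ hV l hl.1 ?_ hl.2.2⟩) hsum)
  intro hd
  exact absurd (Nat.le_of_dvd (by omega) hd) (not_le.2 hl.2.1)

/-- **Theorem.** -/
theorem result (O : Type) [CommRing O] [IsDomain O] [Algebra.FiniteType ℤ O] (a b : ℕ)
    (f : O[X][X]) (hf : IsCab a b f)
    (hs : IsSmooth (image (algebraMap O (FractionRing O)) f)) :
    (∀ h : O, h ≠ 0 → ∃ (F : Type) (_ : Field F) (_ : Finite F) (φ : O →+* F),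
      Function.Surjective φ ∧ φ h ≠ 0) ∧
    ∃ h₀ : O, h₀ ≠ 0 ∧ ∀ (F : Type) [Field F] [Finite F] (φ : O →+* F), φ h₀ ≠ 0 →
      IsCab a b (image φ f) ∧ IsSmooth (image φ f) ∧
      ¬ Summable fun l : {l : ℕ // l.Prime ∧ TrivialSelmer (image φ f) l} => (1 : ℝ) / (l : ℕ) := by
  refine ⟨fun h hh => H13.CB.jac O h hh, ?_⟩
  obtain ⟨h₀, h0, h1⟩ := H13.CB.spec O a b f ((isCab_iff a b f).1 hf) hs
  refine ⟨h₀, h0, fun F _ _ φ hφ => ?_⟩
  obtain ⟨h2, h3⟩ := h1 F φ hφ
  exact ⟨(isCab_iff a b _).2 h2, h3, finite_case h2 h3⟩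

end Pool.Agent.Results.MP_1bad5e_ag.RegularPrimes
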